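import Mathlib

/-! # Linear algebra over `ZMod (p ^ 2)` for the supersoluble examples -/

namespace Pool.Agent.Lib.MP_bb5d5a_al.S

variable {p : ℕ}

/-- The ring of coefficients. -/
abbrev Z (p : ℕ) : Type := ZMod (p ^ 2)

/-- Reduction modulo `p`. -/
def red (p : ℕ) : Z p →+* ZMod p := ZMod.castHom (dvd_pow_self p two_ne_zero) (ZMod p)

theorem pp : (p : Z p) * (p : Z p) = 0 := by
  have h : ((p ^ 2 : ℕ) : Z p) = 0 := ZMod.natCast_self _
  rw [← h]; push_cast; ring

theorem red_p : red p (p : Z p) = 0 := by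
  rw [map_natCast]; exact ZMod.natCast_self p

variable [hp : Fact p.Prime]

instance : NeZero (p ^ 2) := ⟨pow_ne_zero 2 hp.out.ne_zero⟩

theorem exists_of_red {x : Z p} (h : red p x = 0) : ∃ y, x = p * y := by
  rw [← ZMod.natCast_zmod_val x, map_natCast, ZMod.natCast_eq_zero_iff] at h
  obtain ⟨k, hk⟩ := h
  refine ⟨k, ?_⟩
  rw [← ZMod.natCast_zmod_val x, hk]; push_cast; rfl

theorem red_iff (x : Z p) : red p x = 0 ↔ (p : Z p) * x = 0 := by
  constructor
  · intro h
    obtain ⟨y, rfl⟩ := exists_of_red h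
    rw [← mul_assoc, pp, zero_mul]
  · intro h
    rw [← ZMod.natCast_zmod_val x, ← Nat.cast_mul, ZMod.natCast_eq_zero_iff] at h
    rw [← ZMod.natCast_zmod_val x, map_natCast, ZMod.natCast_eq_zero_iff]
    exact Nat.dvd_of_mul_dvd_mul_left hp.out.pos (by rw [← pow_two]; exact h)

theorem mul_red {x y : Z p} (hx : red p x = 0) (hy : red p y = 0) : x * y = 0 := by
  obtain ⟨a, rfl⟩ := exists_of_red hx
  obtain ⟨b, rfl⟩ := exists_of_red hy
  linear_combination (a * b) * pp

theorem exists_inv6 (h5 : 5 ≤ p) : ∃ h : Z p, 6 * h = 1 := by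
  have hc : Nat.Coprime 6 (p ^ 2) := by
    apply Nat.Coprime.pow_right
    rw [show 6 = 2 * 3 by norm_num]
    apply Nat.Coprime.mul_left
    · exact (Nat.coprime_primes Nat.prime_two hp.out).2 (by omega)
    · exact (Nat.coprime_primes Nat.prime_three hp.out).2 (by omega)
  refine ⟨((ZMod.unitOfCoprime 6 hc)⁻¹ : (Z p)ˣ), ?_⟩
  have h := (ZMod.unitOfCoprime 6 hc).mul_inv
  rw [ZMod.coe_unitOfCoprime] at h
  exact_mod_cast h

section block
variable {N : Type} [AddCommGroup N] [Module (Z p) N]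

/-- A one-parameter group that is compatible with the grading. -/
theorem block (h : Z p) (h6 : 6 * h = 1) (e0 e e' : N)
    (ind : ∀ a b c : Z p, a • e0 + b • e + c • e' = 0 → a = 0 ∧ b = 0 ∧ c = 0)
    (span : ∀ m : N, ∃ a b c : Z p, m = a • e0 + b • e + c • e')
    (A : Z p → N →ₗ[Z p] N) (hA0 : ∀ m, A 0 m = m)
    (hA : ∀ β γ m, A (β + γ) m = A β (A γ m))
    (S T : N →ₗ[Z p] N) (hS : ∀ β m, S (A β m) = A β (S m))
    (hT : ∀ β m, T (A β m) = A (-β) (T m))
    (S0 : S e0 = e0) (S1 : S e = -e) (S2 : S e' = -e') (T1 : T e = e) (T2 : T e' = -e') :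
    ∃ t b : Z p, red p (t * b) = 0 ∧ ∀ β : Z p,
      A β e = (1 + 3 * h * β ^ 2 * (t * b)) • e + (t * (β + h * (β ^ 3 - β) * (t * b))) • e' ∧
      A β e' = (b * (β + h * (β ^ 3 - β) * (t * b))) • e + (1 + 3 * h * β ^ 2 * (t * b)) • e' := by
  have ind2 : ∀ a b c d : Z p, a • e + b • e' = c • e + d • e' → a = c ∧ b = d := by
    intro a b c d hh
    obtain ⟨_, h2, h3⟩ := ind 0 (a - c) (b - d) (by
      rw [zero_smul, zero_add, sub_smul, sub_smul, ← sub_eq_zero.2 hh]; abel)
    exact ⟨sub_eq_zero.1 h2, sub_eq_zero.1 h3⟩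
  have two : ∀ m : N, S m = -m → ∃ b c : Z p, m = b • e + c • e' := by
    intro m hm
    obtain ⟨a, b, c, rfl⟩ := span m
    rw [map_add, map_add, map_smul, map_smul, map_smul, S0, S1, S2] at hm
    obtain ⟨h1, -, -⟩ := ind (2 * a) 0 0 (by
      rw [zero_smul, zero_smul, add_zero, add_zero, two_mul, add_smul, ← sub_eq_zero.2 hm]
      simp only [smul_neg]; abel)
    have ha : a = 0 := by linear_combination (3 * h) * h1 - a * h6
    exact ⟨b, c, by rw [ha, zero_smul, zero_add]⟩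
  obtain ⟨u, t, hu⟩ := two (A 1 e) (by rw [hS, S1, map_neg])
  obtain ⟨b, w, hw⟩ := two (A 1 e') (by rw [hS, S2, map_neg])
  have hu' : A (-1) e = u • e + (-t) • e' := by
    have := hT 1 e
    rw [T1, hu, map_add, map_smul, map_smul, T1, T2] at this
    rw [← this]; simp
  have hw' : A (-1) e' = (-b) • e + w • e' := by
    have := hT 1 e'
    rw [T2, map_neg, hw, map_add, map_smul, map_smul, T1, T2] at this
    rw [← neg_inj, ← this]; module
  have i1 : u * u - t * b = 1 ∧ u * t - t * w = 0 := by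
    have := hA 1 (-1) e
    rw [add_neg_cancel, hA0, hu', map_add, map_smul, map_smul, hu, hw] at this
    apply ind2
    rw [one_smul, zero_smul, add_zero]
    nth_rewrite 2 [this]
    simp only [smul_add, smul_smul, sub_smul, neg_mul, neg_smul]; abel
  have i2 : w * b - b * u = 0 ∧ w * w - b * t = 1 := by
    have := hA 1 (-1) e'
    rw [add_neg_cancel, hA0, hw', map_add, map_smul, map_smul, hu, hw] at this
    apply ind2
    rw [one_smul, zero_smul, zero_add]
    nth_rewrite 2 [this]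
    simp only [smul_add, smul_smul, sub_smul, neg_mul, neg_smul]; abel
  let B : Matrix (Fin 2) (Fin 2) (Z p) := !![u, t; b, w]
  have hB : ∀ n : ℕ, A n e = (B ^ n) 0 0 • e + (B ^ n) 0 1 • e' ∧
      A n e' = (B ^ n) 1 0 • e + (B ^ n) 1 1 • e' := by
    intro n
    induction n with
    | zero => simp [hA0]
    | succ n ih =>
      rw [Nat.cast_succ, add_comm, hA, hA, ih.1, ih.2, pow_succ B n]
      simp only [map_add, map_smul, hu, hw, Matrix.mul_apply, Fin.sum_univ_two, B, Matrix.of_apply,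
        Matrix.cons_val', Matrix.cons_val_zero, Matrix.cons_val_one, Matrix.cons_val_fin_one,
        smul_add, smul_smul, add_smul]
      constructor <;> abel
  have hB1 : B ^ (p ^ 2) = 1 := by
    obtain ⟨k1, k2⟩ := hB (p ^ 2)
    rw [ZMod.natCast_self, hA0] at k1 k2
    obtain ⟨a1, a2⟩ := ind2 _ _ 1 0 (by rw [← k1]; simp)
    obtain ⟨a3, a4⟩ := ind2 _ _ 0 1 (by rw [← k2]; simp)
    ext i j
    fin_cases i <;> fin_cases j <;> simp [a1, a2, a3, a4]
  have htr : red p u + red p w = 2 := by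
    have k : ((red p).mapMatrix B - 1) ^ (p ^ 2) = 0 := by
      rw [sub_pow_char_pow_of_commute _ _ (Commute.one_right _), ← map_pow, hB1, map_one, one_pow,
        sub_self]
    have k2 := (Matrix.isNilpotent_trace_of_isNilpotent ⟨_, k⟩).eq_zero
    simp [Matrix.trace, B] at k2
    linear_combination k2
  have r6 : 6 * red p h = 1 := by
    have := congrArg (red p) h6
    simpa [map_ofNat] using this
  have huw : u = w := by
    have k1 : (u - w) * (u + w) = 0 := by linear_combination i1.1 - i2.2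
    have k2 : red p (u + w - 2) = 0 := by rw [map_sub, map_add, htr, map_ofNat, sub_self]
    have k3 := mul_red k2 k2
    linear_combination (3 * h * (1 - 3 * h * (u + w - 2))) * k1 + (9 * h ^ 2 * (u - w)) * k3
      - ((u - w) * (1 - 3 * h * (u + w - 2))) * h6
  subst huw
  have ru : red p (u - 1) = 0 := by
    rw [map_sub, map_one]
    linear_combination (3 * red p h) * htr - (red p u - 1) * r6
  have u2 := mul_red ru ru
  have hν : t * b = 2 * (u - 1) := by linear_combination u2 - i1.1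
  have rν : red p (t * b) = 0 := by rw [hν, map_mul, ru, mul_zero]
  have ν2 := mul_red rν rν
  have hu1 : u = 1 + 3 * h * (t * b) := by linear_combination (-3 * h) * hν - (u - 1) * h6
  refine ⟨t, b, rν, fun β => ?_⟩
  rw [← ZMod.natCast_zmod_val β]
  generalize β.val = n
  induction n with
  | zero => simp [hA0]
  | succ n ih =>
    rw [Nat.cast_succ, add_comm, hA, hA, ih.1, ih.2]
    simp only [map_add, map_smul, hu, hw, smul_add, smul_smul]
    generalize (n : Z p) = x
    have c1 : (1 + 3 * h * x ^ 2 * (t * b)) * u + t * (x + h * (x ^ 3 - x) * (t * b)) * b =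
        1 + 3 * h * (1 + x) ^ 2 * (t * b) := by
      rw [hu1]
      linear_combination (9 * h ^ 2 * x ^ 2 + h * (x ^ 3 - x)) * ν2 - (x * (t * b)) * h6
    have c2 : (1 + 3 * h * x ^ 2 * (t * b)) + (x + h * (x ^ 3 - x) * (t * b)) * u =
        (1 + x) + h * ((1 + x) ^ 3 - (1 + x)) * (t * b) := by
      rw [hu1]
      linear_combination (3 * h ^ 2 * (x ^ 3 - x)) * ν2
    rw [← c1, ← c2]
    constructor <;> module

/-- The core computation. `ψ` is a bijective cocycle in coordinates, `X`, `Y`, `W` are the three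
tori, `α₁`, `α₂` generate the grading group. -/
theorem core {K : Type} [Group K] (h : Z p) (h6 : 6 * h = 1) (e1 e2 e3 : N)
    (c1 c2 c3 : N →ₗ[Z p] Z p) (c11 : c1 e1 = 1) (c12 : c1 e2 = 0) (c13 : c1 e3 = 0)
    (c21 : c2 e1 = 0) (c22 : c2 e2 = 1) (c23 : c2 e3 = 0)
    (c31 : c3 e1 = 0) (c32 : c3 e2 = 0) (c33 : c3 e3 = 1)
    (span : ∀ m : N, ∃ a b c : Z p, m = a • e1 + b • e2 + c • e3)
    (ψ : K → N) (L : K → N →ₗ[Z p] N) (hL : ∀ g k, ψ (g * k) = ψ g + L g (ψ k))
    (hL1 : ∀ m, L 1 m = m) (hLm : ∀ g k m, L (g * k) m = L g (L k m))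
    (X Y W : Z p → K) (X0 : X 0 = 1) (Y0 : Y 0 = 1) (W0 : W 0 = 1)
    (hX : ∀ β γ, X (β + γ) = X β * X γ) (hY : ∀ β γ, Y (β + γ) = Y β * Y γ)
    (hW : ∀ β γ, W (β + γ) = W β * W γ)
    (ψX : ∀ β, ψ (X β) = β • e1) (ψY : ∀ β, ψ (Y β) = β • e2) (ψW : ∀ β, ψ (W β) = β • e3)
    (T1 T2 : N →ₗ[Z p] N)
    (a11 : T1 e1 = e1) (a12 : T1 e2 = -e2) (a13 : T1 e3 = -e3)
    (a21 : T2 e1 = -e1) (a22 : T2 e2 = e2) (a23 : T2 e3 = -e3)
    (X1 : ∀ β m, T1 (L (X β) m) = L (X β) (T1 m)) (X2 : ∀ β m, T2 (L (X β) m) = L (X (-β)) (T2 m))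
    (Y1 : ∀ β m, T1 (L (Y β) m) = L (Y (-β)) (T1 m)) (Y2 : ∀ β m, T2 (L (Y β) m) = L (Y β) (T2 m))
    (W1 : ∀ β m, T1 (L (W β) m) = L (W (-β)) (T1 m))
    (W2 : ∀ β m, T2 (L (W β) m) = L (W (-β)) (T2 m))
    (R3 : X 1 * W 1 = Y (4 * p) * (W (1 + 4 * p) * X 1))
    (R2 : X 1 * Y 1 = Y (1 + 4 * p) * (W (2 + 32 * h * p) * X (1 + 4 * p))) :
    (p : Z p) • L (Y 1) e1 = (p : Z p) • e1 ∧
      (p : Z p) • L (X 1) e2 = (p : Z p) • e2 + (2 * p : Z p) • e3 := by
  have ind : ∀ a b c : Z p, a • e1 + b • e2 + c • e3 = 0 → a = 0 ∧ b = 0 ∧ c = 0 := by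
    intro a b c k
    have k1 := congrArg c1 k
    have k2 := congrArg c2 k
    have k3 := congrArg c3 k
    simp only [map_add, map_smul, c11, c12, c13, c21, c22, c23, c31, c32, c33, smul_eq_mul, mul_one,
      mul_zero, add_zero, zero_add, map_zero] at k1 k2 k3
    exact ⟨k1, k2, k3⟩
  have fix : ∀ (V : Z p → K) (e : N), (∀ β γ, V (β + γ) = V β * V γ) → (∀ β, ψ (V β) = β • e) →
      ∀ β, L (V β) e = e := by
    intro V e h1 h2 β
    have := hL (V β) (V 1)
    rw [← h1, h2, h2, h2, add_smul, one_smul] at this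
    exact (add_left_cancel this).symm
  have fX := fix X e1 hX ψX
  have fY := fix Y e2 hY ψY
  have fW := fix W e3 hW ψW
  obtain ⟨t, b, ν1, HX⟩ := block h h6 e1 e2 e3 ind span (fun β => L (X β))
    (fun m => by simp only [X0, hL1]) (fun β γ m => by simp only [hX, hLm]) T1 T2 X1 X2
    a11 a12 a13 a22 a23
  obtain ⟨s, c, ν2, HY⟩ := block h h6 e2 e1 e3
    (fun a b c k => by
      obtain ⟨k1, k2, k3⟩ := ind b a c (by rw [← k]; abel)
      exact ⟨k2, k1, k3⟩)
    (fun m => by
      obtain ⟨a, b, c, k⟩ := span m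
      exact ⟨b, a, c, by rw [k]; abel⟩)
    (fun β => L (Y β))
    (fun m => by simp only [Y0, hL1]) (fun β γ m => by simp only [hY, hLm]) T2 T1 Y2 Y1
    a22 a21 a23 a11 a13
  obtain ⟨a, d, ν3, HW⟩ := block h h6 e3 e1 e2
    (fun a b c k => by
      obtain ⟨k1, k2, k3⟩ := ind b c a (by rw [← k]; abel)
      exact ⟨k3, k1, k2⟩)
    (fun m => by
      obtain ⟨a, b, c, k⟩ := span m
      exact ⟨c, a, b, by rw [k]; abel⟩)
    (fun β => L (W β))
    (fun m => by simp only [W0, hL1]) (fun β γ m => by simp only [hW, hLm]) (T1.comp T2) T1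
    (fun β m => by simp only [LinearMap.comp_apply, W1, W2, neg_neg]) W1
    (by simp [a13, a23]) (by simp [a11, a21]) (by simp [a12, a22]) a11 a12
  have q : (p : Z p) * (p : Z p) = 0 := pp
  have p1 := (red_iff _).1 ν1
  have p2 := (red_iff _).1 ν2
  have p3 := (red_iff _).1 ν3
  have E1 := congrArg (fun g => c2 (ψ g)) R3
  have E2 := congrArg (fun g => c3 (L g e1)) R3
  have E3 := congrArg (fun g => c2 (L g e1)) R2
  have E4 := congrArg (fun g => c3 (ψ g)) R2
  simp only [hL, hLm, ψX, ψY, ψW, map_add, map_smul, (HX _).1, (HX _).2, (HW _).1, (HY _).1,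
    (HY _).2, fX, fY, c21, c22, c23, c31, c32, c33, smul_eq_mul, mul_one, mul_zero, add_zero,
    zero_add] at E1 E2 E3 E4
  have r6 : 6 * red p h = 1 := by
    have := congrArg (red p) h6
    simpa [map_ofNat] using this
  have GX := (HX 1).1
  have GY := (HY 1).1
  generalize t * b = n1 at ν1 p1 E1 E2 E3 E4 GX
  generalize s * c = n2 at ν2 p2 E2 E3 E4 GY
  generalize a * d = n3 at ν3 p3 E1 E2 E3 E4
  have F1 := congrArg (red p) E1
  have F2 := congrArg (red p) E2
  have F3 := congrArg (red p) E3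
  have F4 := congrArg (red p) E4
  simp only [map_add, map_sub, map_pow, map_one, map_ofNat, map_mul, red_p, ν1, ν2, ν3, mul_zero,
    add_zero, zero_add, mul_one, one_mul] at F1 F2 F3 F4
  have ra : red p a = 0 := by
    linear_combination (9 * red p h ^ 2) * (F2 - F3 + red p s * F1 - red p a * F4)
      - (red p a * (6 * red p h + 1)) * r6
  have an3 := mul_red ra ν3
  have pa := (red_iff _).1 ra
  have at' : a * (t - s - 2) = 0 :=
    mul_red ra (by rw [map_sub, map_sub, F4, map_ofNat]; ring)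
  have G1 : b = 4 * p + a := by
    linear_combination E1 + 4 * pa + (h * ((1 + 4 * p) ^ 3 - (1 + 4 * p))) * an3
  have G2 : a * (2 + s) = 4 * p * s := by
    linear_combination E2 - at' + (12 * h * (1 + 4 * p) ^ 2 * s) * p3 +
      ((1 + 3 * h * (1 + 4 * p) ^ 2 * n3) * s * h * (64 * p ^ 2 - 4)) * p2
  have G3 : s * (4 * p + a) = 2 * a := by
    rw [← G1]
    linear_combination E3 + (32 * h) * pa +
      (h * ((2 + 32 * h * p) ^ 3 - (2 + 32 * h * p))) * an3
  have G4 : a = 2 * p * s := by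
    linear_combination (9 * h ^ 2) * (G2 - G3) - ((a - 2 * p * s) * (6 * h + 1)) * h6
  have G5 : (p : Z p) * (s * s) = 0 := by
    rw [G4] at G2
    linear_combination (3 * h) * G2 - (p * s * s) * h6
  have rs : red p s = 0 := by
    have := (red_iff _).2 G5
    rw [map_mul] at this
    exact mul_self_eq_zero.1 this
  have ps := (red_iff _).1 rs
  have pt : (p : Z p) * (t - 2) = 0 :=
    (red_iff _).1 (by rw [map_sub, F4, rs, map_ofNat]; ring)
  constructor
  · rw [GY, smul_add, smul_smul, smul_smul]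
    rw [show (p : Z p) * (1 + 3 * h * 1 ^ 2 * n2) = p by linear_combination (3 * h) * p2,
      show (p : Z p) * (s * (1 + h * (1 ^ 3 - 1) * n2)) = 0 by linear_combination ps,
      zero_smul, add_zero]
  · rw [GX, smul_add, smul_smul, smul_smul]
    rw [show (p : Z p) * (1 + 3 * h * 1 ^ 2 * n1) = p by linear_combination (3 * h) * p1,
      show (p : Z p) * (t * (1 + h * (1 ^ 3 - 1) * n1)) = 2 * p by linear_combination pt]

end block

end Pool.Agent.Lib.MP_bb5d5a_al.S
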