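import Pool.Agent.Lib.MP_bb5d5a_al.Defs

namespace Pool.Agent.Lib.MP_bb5d5a_al

/-- `G` is supersoluble: there is a finite chain of normal subgroups of `G` from the trivial
subgroup to `G` in which each term is generated by the previous one and a single element (so that
all factors are cyclic). -/
def IsSupersoluble (G : Type) [Group G] : Prop :=
  ∃ (s : ℕ → Subgroup G) (n : ℕ), s 0 = ⊥ ∧ s n = ⊤ ∧ (∀ i, (s i).Normal) ∧
    ∀ i, ∃ g : G, s (i + 1) = s i ⊔ Subgroup.zpowers g

end Pool.Agent.Lib.MP_bb5d5a_al
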