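import Pool.Agent.Lib.MP_bb5d5a_al.NotIYB

/-! # A brace on a coprime semidirect product gives an invariant brace on the normal factor -/

namespace Pool.Agent.Lib.MP_bb5d5a_al.S

section
variable {P Q : Type} [Group P] [Group Q] (act : Q →* MulAut P)
  {p q k l : ℕ} [hp : Fact p.Prime] [hq : Fact q.Prime] (hpq : p ≠ q)
  (cP : Nat.card P = p ^ k) (cQ : Nat.card Q = q ^ l)

omit hp hq in
include cP cQ in
theorem card_sd : Nat.card (P ⋊[act] Q) = p ^ k * q ^ l := by
  rw [SemidirectProduct.card, cP, cQ]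

omit hp in
include cP in
theorem card_inl : Nat.card (SemidirectProduct.inl : P →* P ⋊[act] Q).range = p ^ k := by
  rw [← cP]
  exact (Nat.card_congr (MonoidHom.ofInjective SemidirectProduct.inl_injective).toEquiv).symm

omit hq in
include cQ in
theorem card_inr : Nat.card (SemidirectProduct.inr : Q →* P ⋊[act] Q).range = q ^ l := by
  rw [← cQ]
  exact (Nat.card_congr (MonoidHom.ofInjective SemidirectProduct.inr_injective).toEquiv).symm

include hpq in
theorem fact_pq (r : ℕ) :
    (p ^ k * q ^ l).factorization r = if r = p then k else if r = q then l else 0 := by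
  rw [Nat.factorization_mul (pow_ne_zero _ hp.out.ne_zero) (pow_ne_zero _ hq.out.ne_zero),
    hp.out.factorization_pow, hq.out.factorization_pow]
  simp only [Finsupp.coe_add, Pi.add_apply, Finsupp.single_apply]
  split_ifs <;> omega

include hpq cP cQ in
theorem sylow_sd (hP : HasCocycle P) (hQ : HasCocycle Q) (r : ℕ) (hr : r.Prime)
    (S : Sylow r (P ⋊[act] Q)) : IsIYB S := by
  have : Fact r.Prime := ⟨hr⟩
  have cG := card_sd act cP cQ
  have : Finite (P ⋊[act] Q) := Nat.finite_of_card_ne_zero (by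
    rw [cG]; exact mul_ne_zero (pow_ne_zero _ hp.out.ne_zero) (pow_ne_zero _ hq.out.ne_zero))
  apply isIYB_of_hasCocycle
  by_cases h3 : r = p
  · subst h3
    let T : Sylow r (P ⋊[act] Q) := Sylow.ofCard (SemidirectProduct.inl : P →* P ⋊[act] Q).range
      (by rw [card_inl act cP, cG, fact_pq hpq, if_pos rfl])
    exact HasCocycle.of_equiv ((Sylow.equiv S T).trans
      (MonoidHom.ofInjective SemidirectProduct.inl_injective).symm) hP
  by_cases h2 : r = q
  · subst h2
    let T : Sylow r (P ⋊[act] Q) := Sylow.ofCard (SemidirectProduct.inr : Q →* P ⋊[act] Q).range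
      (by rw [card_inr act cQ, cG, fact_pq hpq, if_neg h3, if_pos rfl])
    exact HasCocycle.of_equiv ((Sylow.equiv S T).trans
      (MonoidHom.ofInjective SemidirectProduct.inr_injective).symm) hQ
  · have hc : Nat.card S = 1 := by
      rw [S.card_eq_multiplicity, cG, fact_pq hpq, if_neg h3, if_neg h2, pow_zero]
    have hs : Subsingleton S := (Nat.card_eq_one_iff_unique.1 hc).1
    have : Unique S := uniqueOfSubsingleton 1
    exact ⟨PUnit, inferInstance, Equiv.ofUnique _ _, fun _ => 0, fun _ _ => rfl⟩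

include hpq cP cQ in
theorem invariant_of_hasCocycle (h : HasCocycle (P ⋊[act] Q)) :
    ∃ (M : Type) (_ : AddCommGroup M) (f : P → M) (L : P → M →+ M) (T : Q → M →+ M),
      Function.Injective f ∧ f 1 = 0 ∧ (∀ a b, ∃ c, f c = f a + f b) ∧
      (∀ a b, f (a * b) = f a + L a (f b)) ∧ ∀ d a, f (act d a) = T d (f a) := by
  obtain ⟨M, _, π, L, hL⟩ := h
  have cG := card_sd act cP cQ
  have p0 : 0 < p ^ k := pow_pos hp.out.pos _
  have q0 : 0 < q ^ l := pow_pos hq.out.pos _
  have : Finite (P ⋊[act] Q) := Nat.finite_of_card_ne_zero (by rw [cG]; positivity)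
  have : Finite M := Finite.of_equiv _ π
  have hM : Nat.card M = p ^ k * q ^ l := by rw [← cG]; exact (Nat.card_congr π).symm
  have hkill : ∀ m : M, (p ^ k * q ^ l) • m = 0 := by
    intro m
    rw [← hM]
    exact card_nsmul_eq_zero'
  have cop : Nat.Coprime (p ^ k) (q ^ l) :=
    Nat.Coprime.pow k l ((Nat.coprime_primes hp.out hq.out).2 hpq)
  obtain ⟨u, v, huv⟩ : ∃ u v : ℤ, u * (p ^ k : ℕ) + v * (q ^ l : ℕ) = 1 :=
    Nat.isCoprime_iff_coprime.2 cop
  have bez : ∀ m : M, m = u • ((p ^ k) • m) + v • ((q ^ l) • m) := by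
    intro m
    rw [← natCast_zsmul, ← natCast_zsmul, smul_smul, smul_smul, ← add_smul, huv, one_smul]
  set B2 := tors π L hL (q ^ l) with hB2
  set B3 := tors π L hL (p ^ k) with hB3
  have m2 : ∀ g, g ∈ B2 ↔ (q ^ l) • π g = 0 := fun g => Iff.rfl
  have m3 : ∀ g, g ∈ B3 ↔ (p ^ k) • π g = 0 := fun g => Iff.rfl
  obtain ⟨i, hi⟩ := card_tors π L hL q l
  obtain ⟨j, hj⟩ := card_tors π L hL p k
  rw [← hB2] at hi
  rw [← hB3] at hj
  have le2 : Nat.card B2 ≤ q ^ l := by
    have h1 : q ^ i ∣ p ^ k * q ^ l := by rw [← hi, ← cG]; exact B2.card_subgroup_dvd_card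
    rw [hi]
    exact Nat.le_of_dvd q0 ((Nat.Coprime.pow i k
      ((Nat.coprime_primes hq.out hp.out).2 hpq.symm)).dvd_of_dvd_mul_left h1)
  have le3 : Nat.card B3 ≤ p ^ k := by
    have h1 : p ^ j ∣ p ^ k * q ^ l := by rw [← hj, ← cG]; exact B3.card_subgroup_dvd_card
    rw [hj]
    exact Nat.le_of_dvd p0 ((Nat.Coprime.pow j l
      ((Nat.coprime_primes hp.out hq.out).2 hpq)).dvd_of_dvd_mul_right h1)
  have ge : p ^ k * q ^ l ≤ Nat.card B2 * Nat.card B3 := by
    rw [← Nat.card_prod, ← hM]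
    apply Nat.card_le_card_of_surjective (fun t : B2 × B3 => π t.1 + π t.2)
    intro m
    refine ⟨(⟨π.symm (u • ((p ^ k) • m)), ?_⟩, ⟨π.symm (v • ((q ^ l) • m)), ?_⟩), ?_⟩
    · rw [m2, Equiv.apply_symm_apply, smul_comm, ← mul_nsmul, hkill, smul_zero]
    · rw [m3, Equiv.apply_symm_apply, smul_comm, ← mul_nsmul, mul_comm, hkill, smul_zero]
    · simp only [Equiv.apply_symm_apply]
      exact (bez m).symm
  have c2 : Nat.card B2 = q ^ l := by
    apply le_antisymm le2
    apply Nat.le_of_mul_le_mul_left _ p0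
    calc p ^ k * q ^ l ≤ Nat.card B2 * Nat.card B3 := ge
      _ ≤ Nat.card B2 * p ^ k := Nat.mul_le_mul_left _ le3
      _ = p ^ k * Nat.card B2 := mul_comm _ _
  have c3 : Nat.card B3 = p ^ k := by
    apply le_antisymm le3
    apply Nat.le_of_mul_le_mul_right _ q0
    calc p ^ k * q ^ l ≤ Nat.card B2 * Nat.card B3 := ge
      _ = Nat.card B3 * q ^ l := by rw [c2, mul_comm]
  have hB3eq : B3 = (SemidirectProduct.inl : P →* P ⋊[act] Q).range := by
    apply Subgroup.eq_of_le_of_card_ge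
    · intro g hg
      rw [SemidirectProduct.range_inl_eq_ker_rightHom, MonoidHom.mem_ker]
      have e1 : g ^ (p ^ k) = 1 := by
        have := pow_card_eq_one' (x := (⟨g, hg⟩ : B3))
        rw [c3] at this
        simpa using congrArg Subtype.val this
      have e2 : (SemidirectProduct.rightHom g) ^ (p ^ k) = 1 := by rw [← map_pow, e1, map_one]
      have e3 : (SemidirectProduct.rightHom g) ^ (q ^ l) = 1 := by
        rw [← cQ]; exact pow_card_eq_one'
      have e4 := pow_gcd_eq_one.2 ⟨e2, e3⟩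
      rw [cop.gcd_eq_one, pow_one] at e4
      exact e4
    · rw [c3, card_inl act cP]
  have hnorm : B3.Normal := by
    rw [hB3eq, SemidirectProduct.range_inl_eq_ker_rightHom]
    infer_instance
  let S : Sylow q (P ⋊[act] Q) :=
    Sylow.ofCard B2 (by rw [c2, cG, fact_pq hpq, if_neg hpq.symm, if_pos rfl])
  let T : Sylow q (P ⋊[act] Q) := Sylow.ofCard (SemidirectProduct.inr : Q →* P ⋊[act] Q).range
      (by rw [card_inr act cQ, cG, fact_pq hpq, if_neg hpq.symm, if_pos rfl])
  obtain ⟨g, hg⟩ := MulAction.exists_smul_eq (P ⋊[act] Q) T S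
  have hq : ∀ d : Q, g * SemidirectProduct.inr d * g⁻¹ ∈ B2 := by
    intro d
    have h1 : (g • T : Sylow q (P ⋊[act] Q)) = S := hg
    have h2 : g * SemidirectProduct.inr d * g⁻¹ ∈ (g • T : Sylow q (P ⋊[act] Q)) := by
      change _ ∈ ((g • T : Sylow q (P ⋊[act] Q)) : Subgroup (P ⋊[act] Q))
      rw [Sylow.coe_subgroup_smul, Subgroup.mem_pointwise_smul_iff_inv_smul_mem]
      simp only [MulAut.smul_def, MulAut.conj_inv_apply]
      refine ⟨d, ?_⟩
      group
    rw [h1] at h2
    exact h2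
  have hconj : ∀ y ∈ B2, ∀ x ∈ B3, π (y * x * y⁻¹) = L y (π x) := by
    intro y hq x hx
    have hx' : y * x * y⁻¹ ∈ B3 := hnorm.conj_mem x hx y
    have e1 := hL y x
    have e2 := hL (y * x * y⁻¹) y
    rw [inv_mul_cancel_right, e1] at e2
    have e3 : π (y * x * y⁻¹) - L y (π x) = π y - L (y * x * y⁻¹) (π y) := by
      rw [sub_eq_sub_iff_add_eq_add, ← e2]
    have k3 : (p ^ k) • (π (y * x * y⁻¹) - L y (π x)) = 0 := by
      rw [nsmul_sub, (m3 _).1 hx', ← map_nsmul, (m3 _).1 hx, map_zero, sub_zero]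
    have k2 : (q ^ l) • (π (y * x * y⁻¹) - L y (π x)) = 0 := by
      rw [e3, nsmul_sub, (m2 _).1 hq, ← map_nsmul, (m2 _).1 hq, map_zero, sub_zero]
    rw [← sub_eq_zero, bez (π (y * x * y⁻¹) - L y (π x)), k2, k3]
    simp
  have hin : ∀ a : P, g * SemidirectProduct.inl a * g⁻¹ ∈ B3 := fun a =>
    hnorm.conj_mem _ (hB3eq ▸ ⟨a, rfl⟩) g
  refine ⟨M, inferInstance, fun a => π (g * SemidirectProduct.inl a * g⁻¹),
    fun a => L (g * SemidirectProduct.inl a * g⁻¹),
    fun d => L (g * SemidirectProduct.inr d * g⁻¹), ?_, ?_, ?_, ?_, ?_⟩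
  · intro a b hab
    have := π.injective hab
    simpa using this
  · simp [coc_one π L hL]
  · intro a b
    have h1 : π.symm (π (g * SemidirectProduct.inl a * g⁻¹) +
        π (g * SemidirectProduct.inl b * g⁻¹)) ∈ B3 := by
      rw [m3, Equiv.apply_symm_apply, nsmul_add, (m3 _).1 (hin a), (m3 _).1 (hin b), add_zero]
    have h2 := hnorm.conj_mem _ h1 g⁻¹
    rw [hB3eq] at h2
    obtain ⟨c, hc⟩ := h2
    refine ⟨c, ?_⟩
    simp only [hc]
    simp [mul_assoc]
  · intro a b
    dsimp only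
    rw [← hL, map_mul (SemidirectProduct.inl : P →* P ⋊[act] Q)]
    congr 1
    group
  · intro d a
    dsimp only
    rw [← hconj _ (hq d) _ (hin a), SemidirectProduct.inl_aut, map_inv]
    congr 1
    group

end

end Pool.Agent.Lib.MP_bb5d5a_al.S
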