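import Pool.Agent.Lib.MP_bb5d5a_al.S.Core
import Pool.Agent.Lib.MP_bb5d5a_al.S.Red

/-! # The groups `K`, `P = K × C_p` and `G = P ⋊ C_2^3` -/

namespace Pool.Agent.Lib.MP_bb5d5a_al.S

variable {p : ℕ}

/-- Norm one elements `a + b i + c j + d k`, `a = 1 + p (b² + c²)`, of the quaternion ring over
`ZMod (p ^ 2)` with `i² = j² = 2 p`. -/
@[ext] structure K (p : ℕ) where
  b : Z p
  c : Z p
  d : Z p

namespace K

instance : Mul (K p) := ⟨fun x y =>
  ⟨x.b + y.b + p * ((x.b ^ 2 + x.c ^ 2) * y.b + (y.b ^ 2 + y.c ^ 2) * x.b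
      + 2 * (x.d * y.c - x.c * y.d)),
   x.c + y.c + p * ((x.b ^ 2 + x.c ^ 2) * y.c + (y.b ^ 2 + y.c ^ 2) * x.c
      + 2 * (x.b * y.d - x.d * y.b)),
   x.d + y.d + (x.b * y.c - x.c * y.b)
      + p * ((x.b ^ 2 + x.c ^ 2) * y.d + (y.b ^ 2 + y.c ^ 2) * x.d)⟩⟩
instance : One (K p) := ⟨⟨0, 0, 0⟩⟩
instance : Inv (K p) := ⟨fun x => ⟨-x.b, -x.c, -x.d⟩⟩

@[simp] theorem mul_b (x y : K p) : (x * y).b = x.b + y.b +
    p * ((x.b ^ 2 + x.c ^ 2) * y.b + (y.b ^ 2 + y.c ^ 2) * x.b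
      + 2 * (x.d * y.c - x.c * y.d)) := rfl
@[simp] theorem mul_c (x y : K p) : (x * y).c = x.c + y.c +
    p * ((x.b ^ 2 + x.c ^ 2) * y.c + (y.b ^ 2 + y.c ^ 2) * x.c
      + 2 * (x.b * y.d - x.d * y.b)) := rfl
@[simp] theorem mul_d (x y : K p) : (x * y).d = x.d + y.d + (x.b * y.c - x.c * y.b)
      + p * ((x.b ^ 2 + x.c ^ 2) * y.d + (y.b ^ 2 + y.c ^ 2) * x.d) := rfl
@[simp] theorem one_b : (1 : K p).b = 0 := rfl
@[simp] theorem one_c : (1 : K p).c = 0 := rfl
@[simp] theorem one_d : (1 : K p).d = 0 := rfl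
@[simp] theorem inv_b (x : K p) : x⁻¹.b = -x.b := rfl
@[simp] theorem inv_c (x : K p) : x⁻¹.c = -x.c := rfl
@[simp] theorem inv_d (x : K p) : x⁻¹.d = -x.d := rfl

theorem assoc (x y z : K p) : x * y * z = x * (y * z) := by
  have q : (p : Z p) * (p : Z p) = 0 := pp
  ext <;> simp only [mul_b, mul_c, mul_d] <;> generalize (p : Z p) = e at q <;> grind

instance : Group (K p) := Group.ofLeftAxioms assoc
  (fun x => by ext <;> simp) (fun x => by ext <;> simp <;> ring)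

/-- Coordinates. -/
def coords : K p ≃ Z p × Z p × Z p where
  toFun x := (x.b, x.c, x.d)
  invFun v := ⟨v.1, v.2.1, v.2.2⟩
  left_inv _ := rfl
  right_inv _ := rfl

/-- Sign changes. -/
def sgn (s t : ℤˣ) : K p → K p := fun x =>
  ⟨((s : ℤ) : Z p) * x.b, ((t : ℤ) : Z p) * x.c, ((s : ℤ) : Z p) * ((t : ℤ) : Z p) * x.d⟩

theorem sq (s : ℤˣ) (R : Type) [CommRing R] : ((s : ℤ) : R) * ((s : ℤ) : R) = 1 := by
  rw [← Int.cast_mul, ← Units.val_mul, Int.units_mul_self]; simp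

theorem sgn_mul (s t : ℤˣ) (x y : K p) : sgn s t (x * y) = sgn s t x * sgn s t y := by
  have h1 := sq s (Z p)
  have h2 := sq t (Z p)
  ext <;> simp only [sgn, mul_b, mul_c, mul_d] <;> generalize ((s : ℤ) : Z p) = u at h1 <;>
    generalize ((t : ℤ) : Z p) = v at h2 <;> grind

theorem sgn_sgn (s t s' t' : ℤˣ) (x : K p) : sgn (s * s') (t * t') x = sgn s t (sgn s' t' x) := by
  ext <;> simp only [sgn, Units.val_mul, Int.cast_mul] <;> ring

theorem sgn_one (x : K p) : sgn 1 1 x = x := by ext <;> simp [sgn]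

/-- The first torus. -/
def X (h β : Z p) : K p := ⟨β + 2 * h * p * β ^ 3, 0, 0⟩
/-- The second torus. -/
def Y (h β : Z p) : K p := ⟨0, β + 2 * h * p * β ^ 3, 0⟩
/-- The third torus. -/
def W (β : Z p) : K p := ⟨0, 0, β⟩

theorem X_add {h : Z p} (h6 : 6 * h = 1) (β γ : Z p) : X h (β + γ) = X h β * X h γ := by
  have q : (p : Z p) * (p : Z p) = 0 := pp
  ext <;> simp only [X, mul_b, mul_c, mul_d] <;> generalize (p : Z p) = e at q <;> grind

theorem Y_add {h : Z p} (h6 : 6 * h = 1) (β γ : Z p) : Y h (β + γ) = Y h β * Y h γ := by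
  have q : (p : Z p) * (p : Z p) = 0 := pp
  ext <;> simp only [Y, mul_b, mul_c, mul_d] <;> generalize (p : Z p) = e at q <;> grind

theorem W_add (β γ : Z p) : W (β + γ) = W β * W γ := by
  ext <;> simp [W]

theorem R3 {h : Z p} (h6 : 6 * h = 1) :
    X h 1 * W 1 = Y h (4 * p) * (W (1 + 4 * (p : Z p)) * X h 1) := by
  have q : (p : Z p) * (p : Z p) = 0 := pp
  ext <;> simp only [X, Y, W, mul_b, mul_c, mul_d] <;> generalize (p : Z p) = e at q <;> grind

theorem R2 {h : Z p} (h6 : 6 * h = 1) :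
    X h 1 * Y h 1 = Y h (1 + 4 * p) * (W (2 + 32 * h * (p : Z p)) * X h (1 + 4 * p)) := by
  have q : (p : Z p) * (p : Z p) = 0 := pp
  ext <;> simp only [X, Y, W, mul_b, mul_c, mul_d] <;> generalize (p : Z p) = e at q <;> grind

theorem R3' {h : Z p} (h6 : 6 * h = 1) :
    Y h 1 * W (-1) = X h (4 * p) * (W (-(1 + 4 * (p : Z p))) * Y h 1) := by
  have q : (p : Z p) * (p : Z p) = 0 := pp
  ext <;> simp only [X, Y, W, mul_b, mul_c, mul_d] <;> generalize (p : Z p) = e at q <;> grind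

theorem R2' {h : Z p} (h6 : 6 * h = 1) :
    Y h 1 * X h 1 = X h (1 + 4 * p) * (W (-(2 + 32 * h * (p : Z p))) * Y h (1 + 4 * p)) := by
  have q : (p : Z p) * (p : Z p) = 0 := pp
  ext <;> simp only [X, Y, W, mul_b, mul_c, mul_d] <;> generalize (p : Z p) = e at q <;> grind

end K

/-- The Sylow `p`-subgroup. -/
abbrev P (p : ℕ) : Type := K p × Multiplicative (ZMod p)

/-- The Sylow `2`-subgroup. -/
abbrev Q : Type := ℤˣ × ℤˣ × ℤˣ

/-- The action by sign changes, as a function. -/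
def actFun (e : Q) (x : P p) : P p :=
  (K.sgn e.1 e.2.1 x.1, Multiplicative.ofAdd (((e.2.2 : ℤ) : ZMod p) * x.2.toAdd))

theorem actFun_mul (e e' : Q) (x : P p) : actFun (e * e') x = actFun e (actFun e' x) := by
  simp only [actFun, Prod.fst_mul, Prod.snd_mul, K.sgn_sgn, Units.val_mul, Int.cast_mul,
    toAdd_ofAdd, mul_assoc]

theorem actFun_one (x : P p) : actFun 1 x = x := by
  simp [actFun, K.sgn_one]

/-- The action by sign changes. -/
def act (p : ℕ) : Q →* MulAut (P p) :=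
  MonoidHom.mk' (fun e =>
    { toFun := actFun e
      invFun := actFun e⁻¹
      left_inv := fun x => by rw [← actFun_mul, inv_mul_cancel, actFun_one]
      right_inv := fun x => by rw [← actFun_mul, mul_inv_cancel, actFun_one]
      map_mul' := fun x y => by
        simp only [actFun, Prod.fst_mul, Prod.snd_mul, K.sgn_mul, toAdd_mul, mul_add, ofAdd_add,
          Prod.mk_mul_mk] })
    (fun e e' => MulEquiv.ext fun x => actFun_mul e e' x)

theorem act_apply (e : Q) (x : P p) : act p e x = actFun e x := rfl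

/-- The supersoluble group of order `8 p ^ 7`. -/
abbrev G (p : ℕ) : Type := P p ⋊[act p] Q

theorem card_Q : Nat.card Q = 2 ^ 3 := by
  simp [Fintype.card_units_int]

theorem hasCocycle_Q : HasCocycle Q :=
  ⟨Additive Q, inferInstance, Additive.ofMul, fun _ => AddMonoidHom.id _, fun _ _ => rfl⟩

theorem card_P : Nat.card (P p) = p ^ 7 := by
  rw [Nat.card_prod, Nat.card_congr (K.coords (p := p)), Nat.card_prod, Nat.card_prod,
    Nat.card_congr (Multiplicative.toAdd (α := ZMod p)), Nat.card_zmod, Nat.card_zmod]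
  ring

variable [hp : Fact p.Prime]

/-- Multiplication by `p` as a map from `ZMod p` to `ZMod (p ^ 2)`. -/
def up (z : ZMod p) : Z p := p * (z.val : Z p)

theorem up_red (x : Z p) : up (red p x) = p * x := by
  rw [up, ← sub_eq_zero, ← mul_sub, ← red_iff, map_sub, map_natCast, ZMod.natCast_zmod_val, sub_self]

theorem red_surj (z : ZMod p) : ∃ x, red p x = z :=
  ⟨z.val, by rw [map_natCast, ZMod.natCast_zmod_val]⟩

theorem up_add (z w : ZMod p) : up (z + w) = up z + up w := by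
  obtain ⟨x, rfl⟩ := red_surj z
  obtain ⟨y, rfl⟩ := red_surj w
  rw [← map_add, up_red, up_red, up_red, mul_add]

theorem hasCocycle_P : HasCocycle (P p) := by
  have q : (p : Z p) * (p : Z p) = 0 := pp
  let π : P p ≃ ZMod p × Z p × Z p × Z p :=
    { toFun := fun x => (red p (x.1.b ^ 2 + x.1.c ^ 2) + x.2.toAdd, x.1.b * (1 + up x.2.toAdd),
        x.1.c * (1 + up x.2.toAdd), x.1.d * (1 + up x.2.toAdd))
      invFun := fun m => (⟨m.2.1 * (1 - up (m.1 - red p (m.2.1 ^ 2 + m.2.2.1 ^ 2))),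
        m.2.2.1 * (1 - up (m.1 - red p (m.2.1 ^ 2 + m.2.2.1 ^ 2))),
        m.2.2.2 * (1 - up (m.1 - red p (m.2.1 ^ 2 + m.2.2.1 ^ 2)))⟩,
        Multiplicative.ofAdd (m.1 - red p (m.2.1 ^ 2 + m.2.2.1 ^ 2)))
      left_inv := by
        rintro ⟨x, z⟩
        obtain ⟨y, hy⟩ := red_surj z.toAdd
        have k : red p (x.b ^ 2 + x.c ^ 2) + z.toAdd - red p ((x.b * (1 + up z.toAdd)) ^ 2 +
            (x.c * (1 + up z.toAdd)) ^ 2) = z.toAdd := by
          simp [up]
        simp only [k]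
        rw [← hy, up_red, hy]
        ext <;> simp only [ofAdd_toAdd] <;> generalize (p : Z p) = e at q <;> grind
      right_inv := by
        rintro ⟨r, b, c, d⟩
        obtain ⟨y, hy⟩ := red_surj (r - red p (b ^ 2 + c ^ 2))
        simp only [toAdd_ofAdd]
        rw [← hy, up_red]
        refine Prod.ext ?_ (Prod.ext ?_ (Prod.ext ?_ ?_))
        · rw [hy]; simp
        all_goals (dsimp only; generalize (p : Z p) = e at q; grind) }
  let L : P p → (ZMod p × Z p × Z p × Z p) →+ (ZMod p × Z p × Z p × Z p) := fun x =>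
    AddMonoidHom.mk' (fun m => (m.1 + 2 * red p (x.1.b * m.2.1 + x.1.c * m.2.2.1),
      (1 + p * (x.1.b ^ 2 + x.1.c ^ 2) + up x.2.toAdd) * m.2.1 + x.1.b * up m.1
        + 2 * p * (x.1.d * m.2.2.1 - x.1.c * m.2.2.2),
      (1 + p * (x.1.b ^ 2 + x.1.c ^ 2) + up x.2.toAdd) * m.2.2.1 + x.1.c * up m.1
        + 2 * p * (x.1.b * m.2.2.2 - x.1.d * m.2.1),
      (1 + p * (x.1.b ^ 2 + x.1.c ^ 2) + up x.2.toAdd) * m.2.2.2 + x.1.d * up m.1
        + (1 + up x.2.toAdd) * (x.1.b * m.2.2.1 - x.1.c * m.2.1)))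
      (fun m n => by
        refine Prod.ext ?_ (Prod.ext ?_ (Prod.ext ?_ ?_)) <;>
          simp only [Prod.fst_add, Prod.snd_add, up_add, map_add, map_mul] <;> ring)
  refine ⟨_, inferInstance, π, L, ?_⟩
  rintro ⟨x, z⟩ ⟨y, w⟩
  obtain ⟨z', hz⟩ := red_surj z.toAdd
  obtain ⟨w', hw⟩ := red_surj w.toAdd
  refine Prod.ext ?_ (Prod.ext ?_ (Prod.ext ?_ ?_))
  · simp [π, L, up]
    ring
  all_goals
    simp only [π, L, Equiv.coe_fn_mk, AddMonoidHom.mk'_apply, Prod.fst_add, Prod.snd_add,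
      Prod.fst_mul, Prod.snd_mul, toAdd_mul, up_add, up_red, ← hz, ← hw, K.mul_b, K.mul_c, K.mul_d]
    clear L π
    generalize (p : Z p) = e at q
    grind

end Pool.Agent.Lib.MP_bb5d5a_al.S
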