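import Pool.Agent.Lib.MP_bb5d5a_al.S.Grp

/-! # There is no invariant brace -/

namespace Pool.Agent.Lib.MP_bb5d5a_al.S

variable {p : ℕ} [hp : Fact p.Prime]

open K

theorem no_invariant_K (h : Z p) (h6 : 6 * h = 1) {M : Type} [AddCommGroup M] (f : K p → M)
    (hf : Function.Injective f) (h1 : f 1 = 0) (hadd : ∀ a b, ∃ c, f c = f a + f b)
    (L : K p → M →+ M) (hL : ∀ a b, f (a * b) = f a + L a (f b)) (T1 T2 : M →+ M)
    (hT1 : ∀ a, f (sgn 1 (-1) a) = T1 (f a)) (hT2 : ∀ a, f (sgn (-1) 1 a) = T2 (f a)) : False := by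
  have q : (p : Z p) * (p : Z p) = 0 := pp
  have half : ∀ x : Z p, -x = x → x = 0 := fun x hx => by
    linear_combination (-3 * h) * hx - x * h6
  have hLL : ∀ a b c, L (a * b) (f c) = L a (L b (f c)) := by
    intro a b c
    have k1 := hL (a * b) c
    rw [mul_assoc, hL a, hL a, hL b, map_add, add_assoc] at k1
    exact (add_left_cancel (add_left_cancel k1)).symm
  have L1 : ∀ c, L 1 (f c) = f c := fun c => by
    have := hL 1 c
    rw [one_mul, h1, zero_add] at this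
    exact this.symm
  have tor : ∀ V : Z p → K p, V 0 = 1 → (∀ β γ, V (β + γ) = V β * V γ) →
      ((∀ β, sgn 1 (-1) (V β) = V β) ∨ ∀ β, sgn 1 (-1) (V β) = V (-β)) →
      ((∀ β, sgn (-1) 1 (V β) = V β) ∨ ∀ β, sgn (-1) 1 (V β) = V (-β)) →
      ∀ β γ, f (V (β + γ)) = f (V β) + f (V γ) := by
    intro V V0 hV s1 s2
    have neg : ∀ β, f (V (-β)) = -f (V β) := by
      intro β
      obtain ⟨c, hc⟩ := hadd (V β) (V (-β))
      have c1 : sgn 1 (-1) c = c := by
        apply hf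
        rw [hT1, hc, map_add, ← hT1, ← hT1]
        rcases s1 with s | s
        · rw [s, s]
        · rw [s, s, neg_neg, add_comm]
      have c2 : sgn (-1) 1 c = c := by
        apply hf
        rw [hT2, hc, map_add, ← hT2, ← hT2]
        rcases s2 with s | s
        · rw [s, s]
        · rw [s, s, neg_neg, add_comm]
      have c3 : c = 1 := by
        ext
        · exact half _ (by simpa [sgn] using congrArg K.b c2)
        · exact half _ (by simpa [sgn] using congrArg K.c c1)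
        · exact half _ (by simpa [sgn] using congrArg K.d c1)
      rw [c3, h1] at hc
      exact (neg_eq_of_add_eq_zero_right hc.symm).symm
    have k : ∀ β γ, L (V (-β)) (f (V γ)) = L (V β) (f (V γ)) := by
      intro β γ
      have k1 := neg (β + γ)
      rw [neg_add, hV, hV, hL, hL, neg, neg, map_neg, neg_add] at k1
      exact neg_injective (add_left_cancel k1)
    intro β γ
    have e : β = 3 * h * β + 3 * h * β := by linear_combination (-β) * h6
    rw [hV, hL]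
    congr 1
    rw [e, hV, hLL, ← k (3 * h * β) γ, ← hLL, ← hV, add_neg_cancel, V0, L1]
  have X0 : X h 0 = 1 := by ext <;> simp [X]
  have Y0 : Y h 0 = 1 := by ext <;> simp [Y]
  have W0 : W (0 : Z p) = 1 := rfl
  have X1 : ∀ β, sgn 1 (-1) (X h β) = X h β := fun β => by ext <;> simp [sgn, X]
  have X2 : ∀ β, sgn (-1) 1 (X h β) = X h (-β) := fun β => by ext <;> simp [sgn, X]; ring
  have Y1 : ∀ β, sgn 1 (-1) (Y h β) = Y h (-β) := fun β => by ext <;> simp [sgn, Y]; ring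
  have Y2 : ∀ β, sgn (-1) 1 (Y h β) = Y h β := fun β => by ext <;> simp [sgn, Y]
  have W1 : ∀ β : Z p, sgn 1 (-1) (W β) = W (-β) := fun β => by ext <;> simp [sgn, W]
  have W2 : ∀ β : Z p, sgn (-1) 1 (W β) = W (-β) := fun β => by ext <;> simp [sgn, W]
  let fX : Z p →+ M := AddMonoidHom.mk' (fun β => f (X h β))
    (tor _ X0 (X_add h6) (Or.inl X1) (Or.inr X2))
  let fY : Z p →+ M := AddMonoidHom.mk' (fun β => f (Y h β))
    (tor _ Y0 (Y_add h6) (Or.inr Y1) (Or.inl Y2))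
  let fW : Z p →+ M := AddMonoidHom.mk' (fun β => f (W β))
    (tor _ W0 W_add (Or.inr W1) (Or.inr W2))
  let Φ : Z p × Z p × Z p →+ M := fX.coprod (fY.coprod fW)
  have Φa : ∀ v, Φ v = f (X h v.1) + (f (Y h v.2.1) + f (W v.2.2)) := fun _ => rfl
  let D1 : (Z p × Z p × Z p) →ₗ[Z p] (Z p × Z p × Z p) :=
    LinearMap.prodMap LinearMap.id (-LinearMap.id)
  let D2 : (Z p × Z p × Z p) →ₗ[Z p] (Z p × Z p × Z p) :=
    LinearMap.prodMap (-LinearMap.id) (LinearMap.prodMap LinearMap.id (-LinearMap.id))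
  have D1a : ∀ v, D1 v = (v.1, -v.2.1, -v.2.2) := fun _ => rfl
  have D2a : ∀ v, D2 v = (-v.1, v.2.1, -v.2.2) := fun _ => rfl
  have ΦD1 : ∀ v, Φ (D1 v) = T1 (Φ v) := fun v => by
    rw [D1a, Φa, Φa, map_add, map_add, ← hT1, ← hT1, ← hT1, X1, Y1, W1]
  have ΦD2 : ∀ v, Φ (D2 v) = T2 (Φ v) := fun v => by
    rw [D2a, Φa, Φa, map_add, map_add, ← hT2, ← hT2, ← hT2, X2, Y2, W2]
  have cub : ∀ β : Z p, β + 2 * h * p * β ^ 3 = 0 → β = 0 := fun β k => by
    linear_combination (1 - 2 * h * p * β ^ 2) * k + (4 * h ^ 2 * β ^ 5) * q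
  have Φinj : Function.Injective Φ := by
    rw [injective_iff_map_eq_zero]
    rintro ⟨x, y, z⟩ k
    have k1 : Φ ((x, y, z) + D1 (x, y, z)) = 0 := by rw [map_add, ΦD1, k, map_zero, add_zero]
    have k2 : Φ ((x, y, z) + D2 (x, y, z)) = 0 := by rw [map_add, ΦD2, k, map_zero, add_zero]
    simp only [D1a, D2a, Φa, Prod.mk_add_mk, add_neg_cancel, X0, Y0, W0, h1, add_zero,
      zero_add] at k1 k2
    have x0 : x = 0 := half x (by
      have := cub _ (congrArg K.b (hf (k1.trans h1.symm)))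
      linear_combination -this)
    have y0 : y = 0 := half y (by
      have := cub _ (congrArg K.c (hf (k2.trans h1.symm)))
      linear_combination -this)
    subst x0 y0
    simp only [Φa, X0, Y0, h1, zero_add] at k
    have z0 : z = 0 := congrArg K.d (hf (k.trans h1.symm))
    rw [z0]; rfl
  have hθ : ∀ v, ∃ g, f g = Φ v := fun v => by
    obtain ⟨c, hc⟩ := hadd (Y h v.2.1) (W v.2.2)
    obtain ⟨d, hd⟩ := hadd (X h v.1) c
    exact ⟨d, by rw [hd, hc, Φa]⟩
  choose θ hθ using hθ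
  have θinj : Function.Injective θ := fun v w k => Φinj (by rw [← hθ, ← hθ, k])
  have θbij : Function.Bijective θ :=
    ⟨θinj, (Finite.injective_iff_surjective_of_equiv K.coords.symm).1 θinj⟩
  let ψ : K p ≃ Z p × Z p × Z p := (Equiv.ofBijective θ θbij).symm
  have ψs : ∀ v, f (ψ.symm v) = Φ v := hθ
  have Φψ : ∀ g, Φ (ψ g) = f g := fun g => by rw [← ψs, Equiv.symm_apply_apply]
  let L' : K p → (Z p × Z p × Z p) →ₗ[Z p] (Z p × Z p × Z p) := fun g =>
    (AddMonoidHom.mk' (fun v => ψ (g * ψ.symm v) - ψ g) (fun v w => Φinj (by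
      simp only [map_add, map_sub, Φψ, hL, ψs]; abel))).toZModLinearMap (p ^ 2)
  have L'a : ∀ g v, L' g v = ψ (g * ψ.symm v) - ψ g := fun _ _ => rfl
  have ΦL : ∀ g v, Φ (L' g v) = L g (Φ v) := fun g v => by
    rw [L'a, map_sub, Φψ, Φψ, hL, ψs, add_sub_cancel_left]
  have hL' : ∀ g k, ψ (g * k) = ψ g + L' g (ψ k) := fun g k => by
    rw [L'a, Equiv.symm_apply_apply, add_sub_cancel]
  have hL1 : ∀ m, L' 1 m = m := fun m => Φinj (by rw [ΦL, ← ψs, L1])
  have hLm : ∀ g k m, L' (g * k) m = L' g (L' k m) := fun g k m =>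
    Φinj (by rw [ΦL, ΦL, ΦL, ← ψs, hLL])
  have ψX : ∀ β, ψ (X h β) = β • ((1, 0, 0) : Z p × Z p × Z p) := fun β =>
    Φinj (by rw [Φψ, Φa]; simp [Y0, W0, h1])
  have ψY : ∀ β, ψ (Y h β) = β • ((0, 1, 0) : Z p × Z p × Z p) := fun β =>
    Φinj (by rw [Φψ, Φa]; simp [X0, W0, h1])
  have ψW : ∀ β, ψ (W β) = β • ((0, 0, 1) : Z p × Z p × Z p) := fun β =>
    Φinj (by rw [Φψ, Φa]; simp [X0, Y0, h1])
  have C1 : ∀ g m, D1 (L' g m) = L' (sgn 1 (-1) g) (D1 m) := fun g m => Φinj (by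
    have k := hT1 (g * ψ.symm m)
    rw [sgn_mul, hL, hL, map_add, hT1, hT1, ψs] at k
    rw [ΦD1, ΦL, ΦL, ΦD1, add_left_cancel k])
  have C2 : ∀ g m, D2 (L' g m) = L' (sgn (-1) 1 g) (D2 m) := fun g m => Φinj (by
    have k := hT2 (g * ψ.symm m)
    rw [sgn_mul, hL, hL, map_add, hT2, hT2, ψs] at k
    rw [ΦD2, ΦL, ΦL, ΦD2, add_left_cancel k])
  let c1 : (Z p × Z p × Z p) →ₗ[Z p] Z p := LinearMap.fst _ _ _
  let c2 : (Z p × Z p × Z p) →ₗ[Z p] Z p := (LinearMap.fst _ _ _).comp (LinearMap.snd _ _ _)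
  let c3 : (Z p × Z p × Z p) →ₗ[Z p] Z p := (LinearMap.snd _ _ _).comp (LinearMap.snd _ _ _)
  have A := (core h h6 (1, 0, 0) (0, 1, 0) (0, 0, 1) c1 c2 c3 rfl rfl rfl rfl rfl rfl rfl rfl rfl
    (fun m => ⟨m.1, m.2.1, m.2.2, by simp⟩) ψ L' hL' hL1 hLm (X h) (Y h) W X0 Y0 W0 (X_add h6)
    (Y_add h6) W_add ψX ψY ψW D1 D2 (by simp [D1a]) (by simp [D1a]) (by simp [D1a])
    (by simp [D2a]) (by simp [D2a]) (by simp [D2a])
    (fun β m => by rw [C1, X1]) (fun β m => by rw [C2, X2]) (fun β m => by rw [C1, Y1])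
    (fun β m => by rw [C2, Y2]) (fun β m => by rw [C1, W1]) (fun β m => by rw [C2, W2])
    (R3 h6) (R2 h6)).2
  have B := (core h h6 (0, 1, 0) (1, 0, 0) (0, 0, -1) c2 c1 (-c3) rfl rfl rfl rfl rfl rfl
    (by simp [c3]) (by simp [c3]) (by simp [c3])
    (fun m => ⟨m.2.1, m.1, -m.2.2, by simp⟩) ψ L' hL' hL1 hLm (Y h) (X h) (fun β => W (-β)) Y0 X0
    (by simp [W0]) (Y_add h6) (X_add h6) (fun β γ => by simp only [neg_add, W_add]) ψY ψX
    (fun β => by simp [ψW]) D2 D1 (by simp [D2a]) (by simp [D2a]) (by simp [D2a])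
    (by simp [D1a]) (by simp [D1a]) (by simp [D1a])
    (fun β m => by rw [C2, Y2]) (fun β m => by rw [C1, Y1]) (fun β m => by rw [C2, X2])
    (fun β m => by rw [C1, X1]) (fun β m => by rw [C2, W2]) (fun β m => by rw [C1, W1])
    (R3' h6) (R2' h6)).1
  rw [B] at A
  have k : (p : Z p) * 1 = 0 := by
    have := congrArg (fun v => v.2.2) A
    simp only [Prod.snd_add, Prod.smul_snd, smul_eq_mul] at this
    linear_combination (-3 * h) * this - (p : Z p) * h6
  exact one_ne_zero ((map_one (red p)).symm.trans ((red_iff _).2 k))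

theorem not_hasCocycle (h5 : 5 ≤ p) : ¬ HasCocycle (G p) := by
  intro hG
  have : Fact (Nat.Prime 2) := ⟨Nat.prime_two⟩
  obtain ⟨h, h6⟩ := exists_inv6 (p := p) h5
  obtain ⟨M, _, f, L, T, hf, h1, hadd, hL, hT⟩ :=
    invariant_of_hasCocycle (act p) (by omega : p ≠ 2) card_P card_Q hG
  have r6 : 6 * red p h = 1 := by
    have := congrArg (red p) h6
    simpa [map_ofNat] using this
  have fixγ : ∀ a : K p, act p (1, 1, -1) (a, 1) = (a, 1) := fun a => by
    simp [act_apply, actFun, sgn_one]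
  refine no_invariant_K h h6 (fun a => f (a, 1)) (fun a b k => congrArg Prod.fst (hf k)) h1 ?_
    (fun a => L (a, 1)) (fun a b => by rw [← hL]; simp) (T (1, -1, 1)) (T (-1, 1, 1))
    (fun a => by rw [← hT]; simp [act_apply, actFun])
    (fun a => by rw [← hT]; simp [act_apply, actFun])
  intro a b
  obtain ⟨⟨c, z⟩, hc⟩ := hadd (a, 1) (b, 1)
  have k : act p (1, 1, -1) (c, z) = (c, z) :=
    hf (by rw [hT, hc, map_add, ← hT, ← hT, fixγ, fixγ])
  have k2 : -z.toAdd = z.toAdd := by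
    simpa [act_apply, actFun] using congrArg (fun x => Multiplicative.toAdd x.2) k
  have k3 : z = 1 := by
    apply Multiplicative.toAdd.injective
    rw [toAdd_one]
    linear_combination (-3 * red p h) * k2 - z.toAdd * r6
  exact ⟨c, by rw [← hc, k3]⟩

end Pool.Agent.Lib.MP_bb5d5a_al.S
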