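import Pool.Agent.Lib.MP_bb5d5a_al.S.Defs
import Pool.Agent.Lib.MP_bb5d5a_al.S.No

/-! # The group `G` is supersoluble -/

namespace Pool.Agent.Lib.MP_bb5d5a_al.S

section general
variable {H : Type} [Group H]

/-- `B` is the top of a chain of normal subgroups of `H` with cyclic factors. -/
def Good (B : Subgroup H) : Prop :=
  ∃ (s : ℕ → Subgroup H) (n : ℕ), s 0 = ⊥ ∧ s n = B ∧ (∀ i, (s i).Normal) ∧
    ∀ i, ∃ g : H, s (i + 1) = s i ⊔ Subgroup.zpowers g

theorem good_bot : Good (⊥ : Subgroup H) :=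
  ⟨fun _ => ⊥, 0, rfl, rfl, fun _ => inferInstance, fun _ => ⟨1, by simp⟩⟩

theorem Good.step {A B : Subgroup H} (hA : Good A) (hB : B.Normal) (g : H)
    (h : B = A ⊔ Subgroup.zpowers g) : Good B := by
  obtain ⟨s, n, s0, sn, hs, hg⟩ := hA
  refine ⟨fun i => if i ≤ n then s i else B, n + 1, by simp [s0], by simp, fun i => ?_, fun i => ?_⟩
  · dsimp only
    split_ifs
    · exact hs i
    · exact hB
  · dsimp only
    rcases lt_trichotomy i n with k | k | k
    · rw [if_pos (by omega), if_pos k.le]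
      exact hg i
    · subst k
      rw [if_neg (by omega), if_pos le_rfl, sn]
      exact ⟨g, h⟩
    · rw [if_neg (by omega), if_neg (by omega)]
      exact ⟨1, by simp⟩

/-- One step down: the kernel of a map to a cyclic group that is multiplicative on `B`. -/
theorem down {C : Type} [Group C] [IsCyclic C] (B : Subgroup H) (hB : B.Normal) (φ : H → C)
    (hφ : ∀ x ∈ B, ∀ y ∈ B, φ (x * y) = φ x * φ y)
    (hn : ∀ g, ∀ x ∈ B, φ x = 1 → φ (g * x * g⁻¹) = 1) :
    ∃ A : Subgroup H, A.Normal ∧ (∀ x, x ∈ A ↔ x ∈ B ∧ φ x = 1) ∧ (Good A → Good B) := by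
  let f : B →* C := MonoidHom.mk' (fun x => φ x) (fun x y => hφ x x.2 y y.2)
  have mem : ∀ x, x ∈ f.ker.map B.subtype ↔ x ∈ B ∧ φ x = 1 := fun x =>
    ⟨fun ⟨y, hy, e⟩ => e ▸ ⟨y.2, hy⟩, fun k => ⟨⟨x, k.1⟩, k.2, rfl⟩⟩
  refine ⟨f.ker.map B.subtype, ⟨fun x hx g => ?_⟩, mem, fun hA => ?_⟩
  · rw [mem] at hx ⊢
    exact ⟨hB.conj_mem x hx.1 g, hn g x hx.1 hx.2⟩
  obtain ⟨⟨c, g, hg⟩, hc⟩ := IsCyclic.exists_generator (α := f.range)
  refine hA.step hB g (le_antisymm (fun x hx => ?_) (sup_le (fun x hx => ((mem x).1 hx).1)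
    (Subgroup.zpowers_le.2 g.2)))
  obtain ⟨n, hn'⟩ := hc ⟨f ⟨x, hx⟩, _, rfl⟩
  have e : f (⟨x, hx⟩ * (g ^ n)⁻¹) = 1 := by
    have := congrArg Subtype.val hn'
    simp only [SubgroupClass.coe_zpow] at this
    rw [map_mul, map_inv, map_zpow, hg, this, mul_inv_cancel]
  have e2 : x = (x * ((g : H) ^ n)⁻¹) * (g : H) ^ n := by group
  rw [e2]
  exact Subgroup.mul_mem_sup ⟨_, e, by simp⟩ (Subgroup.zpow_mem_zpowers _ _)

theorem downA {C : Type} [AddGroup C] [IsAddCyclic C] (B : Subgroup H) (hB : B.Normal) (φ : H → C)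
    (hφ : ∀ x ∈ B, ∀ y ∈ B, φ (x * y) = φ x + φ y)
    (hn : ∀ g, ∀ x ∈ B, φ x = 0 → φ (g * x * g⁻¹) = 0) :
    ∃ A : Subgroup H, A.Normal ∧ (∀ x, x ∈ A ↔ x ∈ B ∧ φ x = 0) ∧ (Good A → Good B) :=
  down B hB (fun x => Multiplicative.ofAdd (φ x)) (fun x hx y hy => by rw [hφ x hx y hy]; rfl) hn

end general

variable {p : ℕ}

open K

theorem mul_left1 (x y : G p) (hx : x.right = 1) : (x * y).left = x.left * y.left := by
  simp [hx]

theorem conj_left (g x : G p) (hx : x.right = 1) :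
    (g * x * g⁻¹).left = g.left * actFun g.right x.left * g.left⁻¹ := by
  simp [hx, ← act_apply]

variable [hp : Fact p.Prime]

theorem supersoluble : IsSupersoluble (G p) := by
  have q : (p : Z p) * (p : Z p) = 0 := pp
  obtain ⟨A1, n1, m1, g1⟩ := down (⊤ : Subgroup (G p)) inferInstance (fun x => x.right.1)
    (fun _ _ _ _ => rfl) (fun g x _ k => by simp [k])
  obtain ⟨A2, n2, m2, g2⟩ := down A1 n1 (fun x => x.right.2.1)
    (fun _ _ _ _ => rfl) (fun g x _ k => by simp [k])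
  obtain ⟨A3, n3, m3, g3⟩ := down A2 n2 (fun x => x.right.2.2)
    (fun _ _ _ _ => rfl) (fun g x _ k => by simp [k])
  have r3 : ∀ x ∈ A3, x.right = 1 := fun x hx => by
    simp only [m3, m2, m1] at hx
    exact Prod.ext hx.1.1.2 (Prod.ext hx.1.2 hx.2)
  obtain ⟨A4, n4, m4, g4⟩ := down A3 n3 (fun x => x.left.2)
    (fun x hx y _ => by rw [mul_left1 x y (r3 x hx)]; rfl)
    (fun g x hx k => by
      rw [conj_left g x (r3 x hx)]
      simp [actFun, k])
  have r4 : ∀ x ∈ A4, x.right = 1 := fun x hx => r3 x ((m4 x).1 hx).1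
  obtain ⟨A5, n5, m5, g5⟩ := downA A4 n4 (fun x => (p : Z p) * x.left.1.b)
    (fun x hx y _ => by
      rw [mul_left1 x y (r4 x hx)]
      simp only [Prod.fst_mul, mul_b]
      generalize (p : Z p) = e at q; grind)
    (fun g x hx k => by
      rw [conj_left g x (r4 x hx)]
      simp only [Prod.fst_mul, Prod.fst_inv, actFun, sgn, mul_b, mul_c, mul_d, inv_b, inv_c, inv_d]
      generalize (p : Z p) = e at q k; grind)
  have r5 : ∀ x ∈ A5, x.right = 1 := fun x hx => r4 x ((m5 x).1 hx).1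
  obtain ⟨A6, n6, m6, g6⟩ := downA A5 n5 (fun x => (p : Z p) * x.left.1.c)
    (fun x hx y _ => by
      rw [mul_left1 x y (r5 x hx)]
      simp only [Prod.fst_mul, mul_c]
      generalize (p : Z p) = e at q; grind)
    (fun g x hx k => by
      rw [conj_left g x (r5 x hx)]
      simp only [Prod.fst_mul, Prod.fst_inv, actFun, sgn, mul_b, mul_c, mul_d, inv_b, inv_c, inv_d]
      generalize (p : Z p) = e at q k; grind)
  have r6 : ∀ x ∈ A6, x.right = 1 ∧ (p : Z p) * x.left.1.b = 0 ∧ (p : Z p) * x.left.1.c = 0 :=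
    fun x hx => ⟨r5 x ((m6 x).1 hx).1, ((m5 x).1 ((m6 x).1 hx).1).2, ((m6 x).1 hx).2⟩
  obtain ⟨A7, n7, m7, g7⟩ := downA A6 n6 (fun x => (p : Z p) * x.left.1.d)
    (fun x hx y _ => by
      obtain ⟨k0, k1, k2⟩ := r6 x hx
      rw [mul_left1 x y k0]
      simp only [Prod.fst_mul, mul_d]
      generalize (p : Z p) = e at q k1 k2; grind)
    (fun g x hx k => by
      obtain ⟨k0, k1, k2⟩ := r6 x hx
      rw [conj_left g x k0]
      simp only [Prod.fst_mul, Prod.fst_inv, actFun, sgn, mul_b, mul_c, mul_d, inv_b, inv_c, inv_d]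
      generalize (p : Z p) = e at q k k1 k2; grind)
  have r7 : ∀ x ∈ A7, x.right = 1 ∧ (p : Z p) * x.left.1.b = 0 ∧ (p : Z p) * x.left.1.c = 0 ∧
      (p : Z p) * x.left.1.d = 0 := fun x hx =>
    ⟨(r6 x ((m7 x).1 hx).1).1, (r6 x ((m7 x).1 hx).1).2.1, (r6 x ((m7 x).1 hx).1).2.2,
      ((m7 x).1 hx).2⟩
  obtain ⟨A8, n8, m8, g8⟩ := downA A7 n7 (fun x => x.left.1.b)
    (fun x hx y hy => by
      obtain ⟨k0, k1, k2, k3⟩ := r7 x hx
      obtain ⟨-, l1, l2, l3⟩ := r7 y hy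
      rw [mul_left1 x y k0]
      simp only [Prod.fst_mul, mul_b]
      generalize (p : Z p) = e at k1 k2 k3 l1 l2 l3; grind)
    (fun g x hx k => by
      obtain ⟨k0, k1, k2, k3⟩ := r7 x hx
      rw [conj_left g x k0]
      simp only [Prod.fst_mul, Prod.fst_inv, actFun, sgn, mul_b, mul_c, mul_d, inv_b, inv_c, inv_d]
      generalize (p : Z p) = e at q k1 k2 k3; grind)
  obtain ⟨A9, n9, m9, g9⟩ := downA A8 n8 (fun x => x.left.1.c)
    (fun x hx y hy => by
      obtain ⟨k0, k1, k2, k3⟩ := r7 x ((m8 x).1 hx).1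
      obtain ⟨-, l1, l2, l3⟩ := r7 y ((m8 y).1 hy).1
      rw [mul_left1 x y k0]
      simp only [Prod.fst_mul, mul_c]
      generalize (p : Z p) = e at k1 k2 k3 l1 l2 l3; grind)
    (fun g x hx k => by
      obtain ⟨k0, k1, k2, k3⟩ := r7 x ((m8 x).1 hx).1
      rw [conj_left g x k0]
      simp only [Prod.fst_mul, Prod.fst_inv, actFun, sgn, mul_b, mul_c, mul_d, inv_b, inv_c, inv_d]
      generalize (p : Z p) = e at q k1 k2 k3; grind)
  have r9 : ∀ x ∈ A9, x ∈ A7 ∧ x.left.1.b = 0 ∧ x.left.1.c = 0 := fun x hx =>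
    ⟨((m8 x).1 ((m9 x).1 hx).1).1, ((m8 x).1 ((m9 x).1 hx).1).2, ((m9 x).1 hx).2⟩
  obtain ⟨A0, n0, m0, g0⟩ := downA A9 n9 (fun x => x.left.1.d)
    (fun x hx y hy => by
      obtain ⟨k0, k1, k2⟩ := r9 x hx
      obtain ⟨-, l1, l2⟩ := r9 y hy
      rw [mul_left1 x y (r7 x k0).1]
      simp [k1, k2, l1, l2])
    (fun g x hx k => by
      obtain ⟨k0, k1, k2⟩ := r9 x hx
      rw [conj_left g x (r7 x k0).1]
      simp only [Prod.fst_mul, Prod.fst_inv, actFun, sgn, mul_b, mul_c, mul_d, inv_b, inv_c, inv_d,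
        k, k1, k2]
      generalize (p : Z p) = e at q; grind)
  have bot : A0 = ⊥ := by
    rw [eq_bot_iff]
    intro x hx
    obtain ⟨k9, kd⟩ := (m0 x).1 hx
    obtain ⟨k7, kb, kc⟩ := r9 x k9
    have k4 : x ∈ A4 := ((m5 x).1 ((m6 x).1 ((m7 x).1 k7).1).1).1
    rw [Subgroup.mem_bot]
    exact SemidirectProduct.ext (Prod.ext (K.ext kb kc kd) ((m4 x).1 k4).2) (r7 x k7).1
  exact g1 (g2 (g3 (g4 (g5 (g6 (g7 (g8 (g9 (g0 (bot ▸ good_bot))))))))))

theorem card_G : Nat.card (G p) = 8 * p ^ 7 := by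
  rw [card_sd (act p) card_P card_Q, mul_comm]; norm_num

instance : Finite (G p) :=
  Nat.finite_of_card_ne_zero (by
    rw [card_G]; exact mul_ne_zero (by norm_num) (pow_ne_zero _ hp.out.ne_zero))

theorem solvable : Group.IsSolvable (G p) := by
  have : Finite (K p) := Finite.of_equiv _ K.coords.symm
  have h1 := (IsPGroup.of_card (card_P (p := p))).isNilpotent
  exact Group.isSolvable_of_ker_le_range (SemidirectProduct.inl : P p →* G p)
    SemidirectProduct.rightHom (by rw [SemidirectProduct.range_inl_eq_ker_rightHom])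

end Pool.Agent.Lib.MP_bb5d5a_al.S
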